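import Pool.Agent.H72.CH.Targets3
import Pool.Agent.H57.LH.Targets2

/-!
# Row ZRC (chains): symbols without places can be dropped
-/

set_option autoImplicit false
set_option linter.unusedVariables false

namespace Pool.Agent.H20.CH3

open Pool.Agent.H68.BP Pool.Agent.H58.SF Pool.Agent.H53.NR
open Pool.Agent.H57.LCI (Pre Realizes)
open Pool.Agent.H72.CH
open Function

theorem pf_ZRC : T_ZRC := by
  intro V ρ 𝔹 m lv hne hH hL
  classical
  let S : Type := {l : Fin ρ.m // 1 ≤ ρ.ar l}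
  let e := Finite.equivFin S
  let ρ' : Sig := ⟨Nat.card S, fun l => ρ.ar (e.symm l).1⟩
  let dr : ∀ {X : Type}, Str ρ X → Str ρ' X := fun 𝕏 l z => 𝕏 (e.symm l).1 z
  have hemb : ∀ {X Y : Type} (𝕏 : Str ρ X) (𝕐 : Str ρ Y) (f : X → Y),
      (∀ (l : Fin ρ'.m) (x : Fin (ρ'.ar l) → X), dr 𝕏 l x ↔ dr 𝕐 l (fun i => f (x i))) →
      ∀ (l : Fin ρ.m), 1 ≤ ρ.ar l → ∀ x : Fin (ρ.ar l) → X, 𝕏 l x ↔ 𝕐 l (fun i => f (x i)) := by
    intro X Y 𝕏 𝕐 f h l hl
    have h1 : ∀ s : S, ∀ x : Fin (ρ.ar s.1) → X, 𝕏 s.1 x ↔ 𝕐 s.1 (fun i => f (x i)) := by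
      intro s
      have h2 := h (e s)
      have h3 : ∀ s' : S, s' = s → (∀ x : Fin (ρ.ar s'.1) → X, 𝕏 s'.1 x ↔
          𝕐 s'.1 (fun i => f (x i))) → ∀ x : Fin (ρ.ar s.1) → X, 𝕏 s.1 x ↔
          𝕐 s.1 (fun i => f (x i)) := by
        rintro s' rfl h4
        exact h4
      exact h3 (e.symm (e s)) (e.symm_apply_apply s) h2
    exact h1 ⟨l, hl⟩
  -- tuples without places
  have hzero : ∀ {Y : Type} (l : Fin ρ.m), ¬ 1 ≤ ρ.ar l → ∀ x y : Fin (ρ.ar l) → Y, x = y := by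
    intro Y l hl x y
    funext i
    exact absurd i.2 (by omega)
  have hpos : ∀ l : Fin ρ'.m, 1 ≤ ρ'.ar l := fun l => (e.symm l).2
  refine ⟨ρ', dr 𝔹, hpos, ?_, ?_, ?_⟩
  · intro F f hf
    have h1 : IsEmb (fun l (x : Fin (ρ.ar l) → F) => 𝔹 l (fun i => (x i : V))) 𝔹 f := by
      refine ⟨hf.1, fun l x => ?_⟩
      by_cases hl : 1 ≤ ρ.ar l
      · exact hemb (fun l (x : Fin (ρ.ar l) → F) => 𝔹 l (fun i => (x i : V))) 𝔹 f hf.2 l hl x
      · show 𝔹 l _ ↔ 𝔹 l _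
        rw [hzero l hl (fun i => (x i : V)) (fun i => f (x i))]
    obtain ⟨g, hg, hg'⟩ := hH F f h1
    exact ⟨g, fun l x => hg _ x, hg'⟩
  · intro r
    obtain ⟨M, hM⟩ := hL r
    refine ⟨M, fun n lam P hlam hP hloc => ?_⟩
    let up : ∀ {j : ℕ}, Str ρ' (Fin j) → Str ρ (Fin j) := fun {j} 𝕏 l z =>
      if hl : 1 ≤ ρ.ar l then
        ∃ (l' : Fin ρ'.m) (h : e.symm l' = ⟨l, hl⟩), 𝕏 l' (fun i => z (Fin.cast (by
          show ρ.ar (e.symm l').1 = ρ.ar l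
          rw [h]) i))
      else ∃ y : Fin (ρ.ar l) → V, 𝔹 l y
    have hdrup : ∀ {j : ℕ} (𝕏 : Str ρ' (Fin j)), dr (up 𝕏) = 𝕏 := by
      intro j 𝕏
      funext l z
      apply propext
      show (dite _ _ _ : Prop) ↔ _
      rw [dif_pos (e.symm l).2]
      constructor
      · rintro ⟨l', h, h2⟩
        have h3 : l' = l := e.symm.injective h
        subst h3
        exact h2
      · intro h
        exact ⟨l, rfl, h⟩
    have hreal : ∀ (p : Pre ρ' (Fin n)) (f : Fin n → V),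
        Realizes 𝔹 f ⟨p.1, p.2.1, up p.2.2⟩ ↔ Realizes (dr 𝔹) f p := by
      intro p f
      constructor
      · rintro ⟨h1, h2⟩
        refine ⟨h1, fun l x => ?_⟩
        have h3 := h2 (e.symm l).1 x
        have h4 := congrFun (congrFun (hdrup p.2.2) l) x
        rw [← h4]
        exact h3
      · rintro ⟨h1, h2⟩
        refine ⟨h1, fun l x => ?_⟩
        by_cases hl : 1 ≤ ρ.ar l
        · refine hemb (up p.2.2) 𝔹 (fun i => f (p.2.1 i)) (fun l' x' => ?_) l hl x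
          rw [hdrup]
          exact h2 l' x'
        · show (dite _ _ _ : Prop) ↔ _
          rw [dif_neg hl]
          constructor
          · rintro ⟨y, hy⟩
            rw [hzero l hl (fun i => f (p.2.1 (x i))) y]
            exact hy
          · intro h
            exact ⟨_, h⟩
    obtain ⟨f, hf1, hf2⟩ := hM n lam {p | ∃ p' ∈ P, p = ⟨p'.1, p'.2.1, up p'.2.2⟩} hlam (by
      rintro _ ⟨p', hp', rfl⟩
      exact hP p' hp') (by
      intro U hU
      obtain ⟨f, hf1, hf2⟩ := hloc U hU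
      refine ⟨f, hf1, ?_⟩
      rintro _ ⟨p', hp', rfl⟩ hpU
      exact ⟨(hreal p' f).2 (hf2 p' hp' hpU).1, (hf2 p' hp' hpU).2⟩)
    exact ⟨f, hf1, fun p hp => (hreal p f).1 (hf2 _ ⟨p, hp, rfl⟩)⟩
  · intro g
    constructor
    · intro hg l x
      by_cases hl : 1 ≤ ρ.ar l
      · exact hemb 𝔹 𝔹 g hg l hl x
      · exact iff_of_eq (congrArg (𝔹 l) (hzero l hl x (fun i => g (x i))))
    · intro hg l x
      exact hg (e.symm l).1 x

end Pool.Agent.H20.CH3
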